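import Mathlib
import Pool.Agent.Lib.Helper12.PolygonEhrhartDefs
import Pool.Agent.Lib.Helper12.PolygonEhrhartProof

namespace Pool.Agent.Results.MP_a14af5_co.ThirteenGon

open Polynomial
open Pool.Agent.Lib.Helper12.PolygonEhrhart

/-- **The order polytope of the face lattice of the 13-gon is not Ehrhart-nonnegative.**
Its Ehrhart polynomial exists and its linear coefficient is `-298495711 / 35302608`,
which is negative. -/
theorem result : ∃ f : ℚ[X], IsEhrhartPolynomial (orderPolytope (FaceLattice 13)) f ∧
    f.coeff 1 = -298495711 / 35302608 ∧ f.coeff 1 < 0 := by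
  have h : (ehrPoly (FaceLattice 13)).coeff 1 = -298495711 / 35302608 := by
    rw [ehrPoly_eq_gPoly, gPoly_coeff_one]
  refine ⟨ehrPoly (FaceLattice 13), fun t => ?_, h, ?_⟩
  · rw [ehrPoly_eval, latticePointCount_orderPolytope]
  · rw [h]; norm_num

end Pool.Agent.Results.MP_a14af5_co.ThirteenGon
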